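import Pool.Agent.Q183.DN.Snd

namespace Pool.Agent.Q183.DN

theorem Kn_cast : (Kn : ℝ) = 4096 * 40000 ^ 24 := by
  have hpow : ∀ a n : ℕ, Nat.pow a n = a ^ n := fun _ _ => rfl
  simp only [Kn, hpow]
  push_cast
  ring

theorem En_cast : (En : ℝ) = 4096 * 32800 ^ 24 := by
  have hpow : ∀ a n : ℕ, Nat.pow a n = a ^ n := fun _ _ => rfl
  simp only [En, hpow]
  push_cast
  ring

theorem far_sound {m0 m1 m2 m3 : ℕ} {d0 d1 d2 d3 : ℝ} (h0 : (m0 : ℝ) ≤ |d0|) (h1 : (m1 : ℝ) ≤ |d1|)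
    (h2 : (m2 : ℝ) ≤ |d2|) (h3 : (m3 : ℝ) ≤ |d3|)
    (hsum : 4096 * (d0 ^ 24 + d1 ^ 24) + d2 ^ 24 + d3 ^ 24 = (En : ℝ)) :
    farOK m0 m1 m2 m3 = false := by
  have hpow : ∀ a n : ℕ, Nat.pow a n = a ^ n := fun _ _ => rfl
  have q0 : 0 ≤ d0 ^ 24 := Even.pow_nonneg (by decide) _
  have q1 : 0 ≤ d1 ^ 24 := Even.pow_nonneg (by decide) _
  have q2 : 0 ≤ d2 ^ 24 := Even.pow_nonneg (by decide) _
  have q3 : 0 ≤ d3 ^ 24 := Even.pow_nonneg (by decide) _
  have big : ∀ {m : ℕ} {d : ℝ}, (m : ℝ) ≤ |d| → 32800 < m → (32800 : ℝ) ^ 24 < d ^ 24 := by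
    intro m d h hm
    rw [← abs24 d]
    have : (32800 : ℝ) < m := by exact_mod_cast hm
    exact pow_lt_pow_left₀ (this.trans_le h) (by norm_num) (n := 24) (by norm_num)
  have big2 : ∀ {m : ℕ} {d : ℝ}, (m : ℝ) ≤ |d| → 2151680000 < m * m →
      4096 * (32800 : ℝ) ^ 24 < d ^ 24 := by
    intro m d h hm
    have h4 : (2151680000 : ℝ) < m * m := by exact_mod_cast hm
    have h5 : (2151680000 : ℝ) < d ^ 2 := by
      rw [← sq_abs]
      nlinarith [Nat.cast_nonneg (α := ℝ) m]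
    have h6 : (2151680000 : ℝ) ^ 12 < (d ^ 2) ^ 12 := pow_lt_pow_left₀ h5 (by norm_num) (by norm_num)
    rw [← pow_mul] at h6
    norm_num at h6 ⊢
    exact h6
  have hE := En_cast
  unfold farOK
  rw [Bool.or_eq_false_iff, Bool.or_eq_false_iff, Bool.or_eq_false_iff, Bool.or_eq_false_iff]
  refine ⟨⟨⟨⟨?_, ?_⟩, ?_⟩, ?_⟩, ?_⟩
  · by_contra hc
    have := Nat.le_of_ble_eq_true (Bool.not_eq_false _ |>.mp hc)
    have := big h0 this
    linarith
  · by_contra hc
    have := Nat.le_of_ble_eq_true (Bool.not_eq_false _ |>.mp hc)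
    have := big h1 this
    linarith
  · by_contra hc
    have := Nat.le_of_ble_eq_true (Bool.not_eq_false _ |>.mp hc)
    have := big2 h2 this
    linarith
  · by_contra hc
    have := Nat.le_of_ble_eq_true (Bool.not_eq_false _ |>.mp hc)
    have := big2 h3 this
    linarith
  · by_contra hc
    have h := Nat.le_of_ble_eq_true (Bool.not_eq_false _ |>.mp hc)
    simp only [hpow] at h
    have h' : (En : ℝ) < 4096 * ((m0 : ℝ) ^ 24 + (m1 : ℝ) ^ 24) + (m2 : ℝ) ^ 24 + (m3 : ℝ) ^ 24 := by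
      exact_mod_cast h
    have e0 : (m0 : ℝ) ^ 24 ≤ d0 ^ 24 := by
      rw [← abs24 d0]; exact pow_le_pow_left₀ (Nat.cast_nonneg _) h0 24
    have e1 : (m1 : ℝ) ^ 24 ≤ d1 ^ 24 := by
      rw [← abs24 d1]; exact pow_le_pow_left₀ (Nat.cast_nonneg _) h1 24
    have e2 : (m2 : ℝ) ^ 24 ≤ d2 ^ 24 := by
      rw [← abs24 d2]; exact pow_le_pow_left₀ (Nat.cast_nonneg _) h2 24
    have e3 : (m3 : ℝ) ^ 24 ≤ d3 ^ 24 := by
      rw [← abs24 d3]; exact pow_le_pow_left₀ (Nat.cast_nonneg _) h3 24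
    linarith

theorem near_sound {m0 m1 m2 m3 : ℕ} {d0 d1 d2 d3 : ℝ} (h0 : |d0| ≤ (m0 : ℝ)) (h1 : |d1| ≤ (m1 : ℝ))
    (h2 : |d2| ≤ (m2 : ℝ)) (h3 : |d3| ≤ (m3 : ℝ))
    (hsum : 4096 * (d0 ^ 24 + d1 ^ 24) + d2 ^ 24 + d3 ^ 24 = (En : ℝ)) :
    nearOK m0 m1 m2 m3 = false := by
  have hpow : ∀ a n : ℕ, Nat.pow a n = a ^ n := fun _ _ => rfl
  by_contra hc
  have h := Nat.le_of_ble_eq_true (Bool.not_eq_false _ |>.mp hc)
  simp only [hpow] at h
  have h' : 4096 * ((m0 : ℝ) ^ 24 + (m1 : ℝ) ^ 24) + (m2 : ℝ) ^ 24 + (m3 : ℝ) ^ 24 < (En : ℝ) := by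
    exact_mod_cast h
  have e0 : d0 ^ 24 ≤ (m0 : ℝ) ^ 24 := by
    rw [← abs24 d0]; exact pow_le_pow_left₀ (abs_nonneg _) h0 24
  have e1 : d1 ^ 24 ≤ (m1 : ℝ) ^ 24 := by
    rw [← abs24 d1]; exact pow_le_pow_left₀ (abs_nonneg _) h1 24
  have e2 : d2 ^ 24 ≤ (m2 : ℝ) ^ 24 := by
    rw [← abs24 d2]; exact pow_le_pow_left₀ (abs_nonneg _) h2 24
  have e3 : d3 ^ 24 ≤ (m3 : ℝ) ^ 24 := by
    rw [← abs24 d3]; exact pow_le_pow_left₀ (abs_nonneg _) h3 24
  linarith

theorem check_sound {A B : I4} {n0 n1 n2 n3 : Bool} {a0 a1 a2 a3 β0 β1 β2 β3 b0 b1 b2 b3 : ℝ}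
    (hA : In4 A a0 a1 a2 a3) (hB : In4 B β0 β1 β2 β3)
    (e0 : b0 = if n0 = true then -β0 else β0) (e1 : b1 = if n1 = true then -β1 else β1)
    (e2 : b2 = if n2 = true then -β2 else β2) (e3 : b3 = if n3 = true then -β3 else β3)
    (hsum : 4096 * ((a0 - b0) ^ 24 + (a1 - b1) ^ 24) + (a2 - b2) ^ 24 + (a3 - b3) ^ 24 = (En : ℝ))
    (hc : check A B n0 n1 n2 n3 = true) :
    4096 * (PP a0 b0 + PP a1 b1) + PP a2 b2 + PP a3 b3 ≤ (Bn : ℝ) := by
  obtain ⟨l0, u0, f0⟩ := comp_sound _ _ _ _ n0 hA.x1 hA.x2 hB.x1 hB.x2 e0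
  obtain ⟨l1, u1, f1⟩ := comp_sound _ _ _ _ n1 hA.y1 hA.y2 hB.y1 hB.y2 e1
  obtain ⟨l2, u2, f2⟩ := comp_sound _ _ _ _ n2 hA.s1 hA.s2 hB.s1 hB.s2 e2
  obtain ⟨l3, u3, f3⟩ := comp_sound _ _ _ _ n3 hA.t1 hA.t2 hB.t1 hB.t2 e3
  unfold check at hc
  rw [far_sound l0 l1 l2 l3 hsum, near_sound u0 u1 u2 u3 hsum, Bool.or_false, Bool.false_or] at hc
  have h := Nat.le_of_ble_eq_true hc
  have h' := (Nat.cast_le (α := ℝ)).mpr h
  push_cast at h'
  linarith

theorem In4.swp {B : I4} {x y s t : ℝ} (h : In4 B x y s t) : In4 (swp B) y x s t :=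
  ⟨h.y1, h.y2, h.x1, h.x2, h.s1, h.s2, h.t1, h.t2⟩

theorem In4.st {B : I4} {x y s t : ℝ} (h : In4 B x y s t) : In4 (st B) x y t s :=
  ⟨h.x1, h.x2, h.y1, h.y2, h.t1, h.t2, h.s1, h.s2⟩

theorem pair_ok {A B : I4} (hA : A ∈ cellList) (hB : B ∈ cellList) : pairOK A B = true :=
  List.all_eq_true.mp (List.all_eq_true.mp all_ok A hA) B hB

theorem QR_negx (x y : ℝ) : QR (-x) y = QR x y := by
  unfold QR
  have e1 : (-x + y) = -(x - y) := by ring
  have e2 : (-x - y) = -(x + y) := by ring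
  rw [e1, e2, even24, even24, even24]
  exact add_right_comm _ _ _

theorem QR_swap (x y : ℝ) : QR y x = QR x y := by
  unfold QR
  have e1 : (y - x) = -(x - y) := by ring
  have e2 : (y + x) = (x + y) := by ring
  rw [e1, e2, even24, add_comm (y ^ 24)]

theorem QR_negy (x y : ℝ) : QR x (-y) = QR x y := by
  rw [← QR_swap, QR_negx, QR_swap]

theorem Phi_negx (x1 y1 x2 y2 : ℝ) : PhiR (-x1) y1 (-x2) y2 = PhiR x1 y1 x2 y2 := by
  unfold PhiR
  have e1 : ∀ x y : ℝ, (-x + y) = -(x - y) := fun x y => by ring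
  have e2 : ∀ x y : ℝ, (-x - y) = -(x + y) := fun x y => by ring
  rw [e1, e1, e2, e2, PP_neg, PP_neg, PP_neg]
  ring

theorem Phi_swap (x1 y1 x2 y2 : ℝ) : PhiR y1 x1 y2 x2 = PhiR x1 y1 x2 y2 := by
  unfold PhiR
  have e1 : ∀ x y : ℝ, (y - x) = -(x - y) := fun x y => by ring
  have e2 : ∀ x y : ℝ, (y + x) = (x + y) := fun x y => by ring
  rw [e1 x1, e1 x2, e2 x1, e2 x2, PP_neg]
  ring

theorem Phi_negy (x1 y1 x2 y2 : ℝ) : PhiR x1 (-y1) x2 (-y2) = PhiR x1 y1 x2 y2 := by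
  rw [← Phi_swap, Phi_negx, Phi_swap]

theorem sgf {β b : ℝ} (h : b = β) : b = if false = true then -β else β := by
  simp only [if_false, Bool.false_eq_true]; exact h

theorem sgt {β b : ℝ} (h : b = -β) : b = if true = true then -β else β := by
  simp only [if_true]; exact h

/-- the first point in the sector -/
theorem sector {x1 y1 x2 y2 : ℝ} (h0 : 0 ≤ y1) (h01 : y1 ≤ x1) (h1 : QR x1 y1 = (Kn : ℝ))
    (h2 : QR x2 y2 = (Kn : ℝ)) (h3 : QR (x1 - x2) (y1 - y2) = (En : ℝ)) :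
    PhiR x1 y1 x2 y2 ≤ (Bn : ℝ) := by
  obtain ⟨A, hA, hA4⟩ := exists_cell h01 h0 h1
  have hs : 4096 * ((x1 - x2) ^ 24 + (y1 - y2) ^ 24) + ((x1 + y1) - (x2 + y2)) ^ 24 +
      ((x1 - y1) - (x2 - y2)) ^ 24 = (En : ℝ) := by
    rw [← h3]
    unfold QR
    have e1 : (x1 - x2) + (y1 - y2) = (x1 + y1) - (x2 + y2) := by ring
    have e2 : (x1 - x2) - (y1 - y2) = (x1 - y1) - (x2 - y2) := by ring
    rw [e1, e2]
  unfold PhiR
  -- split a boolean conjunction
  have hsplit : ∀ {B : I4}, B ∈ cellList →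
      check A B false false false false = true ∧
      check A (DN.st B) true false true true = true ∧
      check A (DN.st B) false true false false = true ∧
      check A B true true true true = true ∧
      check A (DN.swp B) false false false true = true ∧
      check A (DN.st (DN.swp B)) true false false true = true ∧
      check A (DN.st (DN.swp B)) false true true false = true ∧
      check A (DN.swp B) true true true false = true := by
    intro B hB
    have h := pair_ok hA hB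
    unfold pairOK at h
    simp only [Bool.and_eq_true] at h
    obtain ⟨⟨⟨⟨⟨⟨⟨c1, c2⟩, c3⟩, c4⟩, c5⟩, c6⟩, c7⟩, c8⟩ := h
    exact ⟨c1, c2, c3, c4, c5, c6, c7, c8⟩
  rcases le_total 0 x2 with hx | hx <;> rcases le_total 0 y2 with hy | hy
  · rcases le_total y2 x2 with hxy | hxy
    · obtain ⟨B, hB, hB4⟩ := exists_cell hxy hy h2
      exact check_sound hA4 hB4 (by first | exact sgf (by ring) | exact sgt (by ring))
        (by first | exact sgf (by ring) | exact sgt (by ring))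
        (by first | exact sgf (by ring) | exact sgt (by ring))
        (by first | exact sgf (by ring) | exact sgt (by ring)) hs (hsplit hB).1
    · obtain ⟨B, hB, hB4⟩ := exists_cell hxy hx (by rw [QR_swap]; exact h2)
      exact check_sound hA4 hB4.swp (by first | exact sgf (by ring) | exact sgt (by ring))
        (by first | exact sgf (by ring) | exact sgt (by ring))
        (by first | exact sgf (by ring) | exact sgt (by ring))
        (by first | exact sgf (by ring) | exact sgt (by ring)) hs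
        (hsplit hB).2.2.2.2.1
  · rcases le_total (-y2) x2 with hxy | hxy
    · obtain ⟨B, hB, hB4⟩ := exists_cell hxy (neg_nonneg.mpr hy) (by rw [QR_negy]; exact h2)
      exact check_sound hA4 hB4.st (by first | exact sgf (by ring) | exact sgt (by ring))
        (by first | exact sgf (by ring) | exact sgt (by ring))
        (by first | exact sgf (by ring) | exact sgt (by ring))
        (by first | exact sgf (by ring) | exact sgt (by ring)) hs
        (hsplit hB).2.2.1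
    · obtain ⟨B, hB, hB4⟩ := exists_cell hxy hx (by rw [QR_swap, QR_negy]; exact h2)
      exact check_sound hA4 hB4.swp.st (by first | exact sgf (by ring) | exact sgt (by ring))
        (by first | exact sgf (by ring) | exact sgt (by ring))
        (by first | exact sgf (by ring) | exact sgt (by ring))
        (by first | exact sgf (by ring) | exact sgt (by ring)) hs
        (hsplit hB).2.2.2.2.2.2.1
  · rcases le_total y2 (-x2) with hxy | hxy
    · obtain ⟨B, hB, hB4⟩ := exists_cell hxy hy (by rw [QR_negx]; exact h2)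
      exact check_sound hA4 hB4.st (by first | exact sgf (by ring) | exact sgt (by ring))
        (by first | exact sgf (by ring) | exact sgt (by ring))
        (by first | exact sgf (by ring) | exact sgt (by ring))
        (by first | exact sgf (by ring) | exact sgt (by ring)) hs
        (hsplit hB).2.1
    · obtain ⟨B, hB, hB4⟩ := exists_cell hxy (neg_nonneg.mpr hx) (by rw [QR_swap, QR_negx]; exact h2)
      exact check_sound hA4 hB4.swp.st (by first | exact sgf (by ring) | exact sgt (by ring))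
        (by first | exact sgf (by ring) | exact sgt (by ring))
        (by first | exact sgf (by ring) | exact sgt (by ring))
        (by first | exact sgf (by ring) | exact sgt (by ring)) hs
        (hsplit hB).2.2.2.2.2.1
  · rcases le_total (-y2) (-x2) with hxy | hxy
    · obtain ⟨B, hB, hB4⟩ := exists_cell hxy (neg_nonneg.mpr hy) (by rw [QR_negx, QR_negy]; exact h2)
      exact check_sound hA4 hB4 (by first | exact sgf (by ring) | exact sgt (by ring))
        (by first | exact sgf (by ring) | exact sgt (by ring))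
        (by first | exact sgf (by ring) | exact sgt (by ring))
        (by first | exact sgf (by ring) | exact sgt (by ring)) hs
        (hsplit hB).2.2.2.1
    · obtain ⟨B, hB, hB4⟩ := exists_cell hxy (neg_nonneg.mpr hx)
        (by rw [QR_swap, QR_negx, QR_negy]; exact h2)
      exact check_sound hA4 hB4.swp (by first | exact sgf (by ring) | exact sgt (by ring))
        (by first | exact sgf (by ring) | exact sgt (by ring))
        (by first | exact sgf (by ring) | exact sgt (by ring))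
        (by first | exact sgf (by ring) | exact sgt (by ring)) hs
        (hsplit hB).2.2.2.2.2.2.2

theorem main_scaled {x1 y1 x2 y2 : ℝ} (h1 : QR x1 y1 = (Kn : ℝ)) (h2 : QR x2 y2 = (Kn : ℝ))
    (h3 : QR (x1 - x2) (y1 - y2) = (En : ℝ)) : PhiR x1 y1 x2 y2 ≤ (Bn : ℝ) := by
  -- both coordinates nonnegative
  have key : ∀ {x1 y1 x2 y2 : ℝ}, 0 ≤ x1 → 0 ≤ y1 → QR x1 y1 = (Kn : ℝ) → QR x2 y2 = (Kn : ℝ) →
      QR (x1 - x2) (y1 - y2) = (En : ℝ) → PhiR x1 y1 x2 y2 ≤ (Bn : ℝ) := by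
    intro x1 y1 x2 y2 hx hy h1 h2 h3
    rcases le_total y1 x1 with h | h
    · exact sector hy h h1 h2 h3
    · rw [← Phi_swap]
      refine sector hx h (by rw [QR_swap]; exact h1) (by rw [QR_swap]; exact h2) ?_
      rw [QR_swap]
      exact h3
  have key2 : ∀ {x1 y1 x2 y2 : ℝ}, 0 ≤ x1 → QR x1 y1 = (Kn : ℝ) → QR x2 y2 = (Kn : ℝ) →
      QR (x1 - x2) (y1 - y2) = (En : ℝ) → PhiR x1 y1 x2 y2 ≤ (Bn : ℝ) := by
    intro x1 y1 x2 y2 hx h1 h2 h3
    rcases le_total 0 y1 with h | h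
    · exact key hx h h1 h2 h3
    · rw [← Phi_negy]
      refine key hx (by linarith) (by rw [QR_negy]; exact h1) (by rw [QR_negy]; exact h2) ?_
      rw [← h3, ← QR_negy]
      congr 1
      ring
  rcases le_total 0 x1 with h | h
  · exact key2 h h1 h2 h3
  · rw [← Phi_negx]
    refine key2 (by linarith) (by rw [QR_negx]; exact h1) (by rw [QR_negx]; exact h2) ?_
    rw [← h3, ← QR_negx]
    congr 1
    ring

end Pool.Agent.Q183.DN
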