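import Pool.Agent.Q183.DN.Tab

namespace Pool.Agent.Q183.DN

/-- `4096 (x^24 + y^24) + (x + y)^24 + (x - y)^24`. -/
def QR (x y : ℝ) : ℝ := 4096 * (x ^ 24 + y ^ 24) + (x + y) ^ 24 + (x - y) ^ 24

def PP (a b : ℝ) : ℝ := (a ^ 23 - b ^ 23) * (a - b)

def PhiR (x1 y1 x2 y2 : ℝ) : ℝ :=
  4096 * (PP x1 x2 + PP y1 y2) + PP (x1 + y1) (x2 + y2) + PP (x1 - y1) (x2 - y2)

theorem even24 (a : ℝ) : (-a) ^ 24 = a ^ 24 := Even.neg_pow (by decide) a

theorem abs24 (a : ℝ) : |a| ^ 24 = a ^ 24 := Even.pow_abs (by decide) a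

theorem odd23 (a : ℝ) : (-a) ^ 23 = -a ^ 23 := Odd.neg_pow (by decide) a

theorem PP_neg (a b : ℝ) : PP (-a) (-b) = PP a b := by
  unfold PP
  rw [odd23, odd23]
  ring

theorem QR_cast (X Y : ℕ) : QR X Y = (Qn X Y : ℝ) := by
  unfold QR Qn
  have h1 : ∀ a n : ℕ, Nat.pow a n = a ^ n := fun _ _ => rfl
  simp only [h1]
  have h2 : ((((X - Y) + (Y - X) : ℕ) : ℝ)) ^ 24 = ((X : ℝ) - Y) ^ 24 := by
    rcases le_total X Y with h | h
    · rw [Nat.sub_eq_zero_of_le h, zero_add, Nat.cast_sub h, ← even24]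
      ring_nf
    · rw [Nat.sub_eq_zero_of_le h, add_zero, Nat.cast_sub h]
  push_cast at h2 ⊢
  rw [h2]

theorem bin24 (u v : ℝ) : (u + v) ^ 24 + (u - v) ^ 24 =
    2 * (u ^ 24 + 276 * (u ^ 22 * v ^ 2) + 10626 * (u ^ 20 * v ^ 4) + 134596 * (u ^ 18 * v ^ 6) +
      735471 * (u ^ 16 * v ^ 8) + 1961256 * (u ^ 14 * v ^ 10) + 2704156 * (u ^ 12 * v ^ 12) +
      1961256 * (u ^ 10 * v ^ 14) + 735471 * (u ^ 8 * v ^ 16) + 134596 * (u ^ 6 * v ^ 18) +
      10626 * (u ^ 4 * v ^ 20) + 276 * (u ^ 2 * v ^ 22) + v ^ 24) := by ring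

theorem sum_mono {u v u' v' : ℝ} (hu : 0 ≤ u) (hv : 0 ≤ v) (h1 : u ≤ u') (h2 : v ≤ v') :
    (u + v) ^ 24 + (u - v) ^ 24 ≤ (u' + v') ^ 24 + (u' - v') ^ 24 := by
  rw [bin24, bin24]
  gcongr

theorem QR_lt {x y x' y' : ℝ} (hx : 0 ≤ x) (hy : 0 ≤ y) (h1 : x < x') (h2 : y ≤ y') :
    QR x y < QR x' y' := by
  unfold QR
  have e1 := sum_mono hx hy h1.le h2
  have e2 : x ^ 24 < x' ^ 24 := pow_lt_pow_left₀ h1 hx (by norm_num)
  have e3 : y ^ 24 ≤ y' ^ 24 := pow_le_pow_left₀ hy h2 24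
  linarith

theorem QR_st (x y : ℝ) : QR x y = 1 / 4096 * (((x + y) + (x - y)) ^ 24 + ((x + y) - (x - y)) ^ 24) +
    (x + y) ^ 24 + (x - y) ^ 24 := by
  unfold QR
  have e1 : (x + y) + (x - y) = 2 * x := by ring
  have e2 : (x + y) - (x - y) = 2 * y := by ring
  rw [e1, e2, mul_pow, mul_pow]
  norm_num
  ring

theorem QR_lt_st {x y x' y' : ℝ} (hs : 0 ≤ x + y) (ht : 0 ≤ x - y) (h1 : x + y < x' + y')
    (h2 : x - y ≤ x' - y') : QR x y < QR x' y' := by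
  rw [QR_st, QR_st]
  have e1 := sum_mono hs ht h1.le h2
  have e2 : (x + y) ^ 24 < (x' + y') ^ 24 := pow_lt_pow_left₀ h1 hs (by norm_num)
  have e3 : (x - y) ^ 24 ≤ (x' - y') ^ 24 := pow_le_pow_left₀ ht h2 24
  linarith

/-- membership in four intervals -/
structure In4 (I : I4) (x y s t : ℝ) : Prop where
  x1 : (I.1.1 : ℝ) ≤ x
  x2 : x ≤ (I.1.2 : ℝ)
  y1 : (I.2.1.1 : ℝ) ≤ y
  y2 : y ≤ (I.2.1.2 : ℝ)
  s1 : (I.2.2.1.1 : ℝ) ≤ s
  s2 : s ≤ (I.2.2.1.2 : ℝ)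
  t1 : (I.2.2.2.1 : ℝ) ≤ t
  t2 : t ≤ (I.2.2.2.2 : ℝ)

theorem cast_sub_ge (m n : ℕ) : (m : ℝ) - n ≤ ((m - n : ℕ) : ℝ) := by
  rcases le_total n m with h | h
  · rw [Nat.cast_sub h]
  · rw [Nat.sub_eq_zero_of_le h]
    have : (m : ℝ) ≤ n := by exact_mod_cast h
    simp only [Nat.cast_zero]
    linarith

theorem cast_sub_le {m n : ℕ} {r : ℝ} (h0 : 0 ≤ r) (h : (m : ℝ) - n ≤ r) :
    ((m - n : ℕ) : ℝ) ≤ r := by
  rcases le_total n m with h' | h'
  · rwa [Nat.cast_sub h']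
  · rw [Nat.sub_eq_zero_of_le h']
    simpa using h0

theorem nodeOK_iff {p : ℕ × ℕ} (h : nodeOK p = true) :
    QR p.1 p.2 ≤ (Kn : ℝ) ∧ (Kn : ℝ) ≤ QR (p.1 + 1) p.2 ∧ (p.2 : ℝ) ≤ p.1 + 1 := by
  unfold nodeOK at h
  rw [Bool.and_eq_true, Bool.and_eq_true] at h
  obtain ⟨⟨h1, h2⟩, h3⟩ := h
  have h1' := Nat.le_of_ble_eq_true h1
  have h2' := Nat.le_of_ble_eq_true h2
  have h3' := Nat.le_of_ble_eq_true h3
  refine ⟨?_, ?_, ?_⟩
  · rw [QR_cast]
    exact_mod_cast h1'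
  · have : ((p.1 : ℝ) + 1) = ((p.1 + 1 : ℕ) : ℝ) := by push_cast; ring
    rw [this, QR_cast]
    exact_mod_cast h2'
  · exact_mod_cast h3'

theorem cell_ranges {c : (ℕ × ℕ) × (ℕ × ℕ)} (ha : nodeOK c.1 = true) (hb : nodeOK c.2 = true)
    {x y : ℝ} (hxy : y ≤ x) (hy0 : 0 ≤ y) (hQ : QR x y = (Kn : ℝ)) (h1 : (c.1.2 : ℝ) ≤ y)
    (h2 : y ≤ (c.2.2 : ℝ)) : In4 (ranges c) x y (x + y) (x - y) := by
  obtain ⟨a1, a2, a3⟩ := nodeOK_iff ha
  obtain ⟨b1, b2, b3⟩ := nodeOK_iff hb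
  have hXa : (0 : ℝ) ≤ c.1.1 := Nat.cast_nonneg _
  have hXb : (0 : ℝ) ≤ c.2.1 := Nat.cast_nonneg _
  have hYa : (0 : ℝ) ≤ c.1.2 := Nat.cast_nonneg _
  have hYb : (0 : ℝ) ≤ c.2.2 := Nat.cast_nonneg _
  have hx0 : 0 ≤ x := hy0.trans hxy
  have r1 : x ≤ (c.1.1 : ℝ) + 1 := by
    by_contra h
    push Not at h
    have := QR_lt (by positivity) hYa h h1
    linarith
  have r2 : (c.2.1 : ℝ) ≤ x := by
    by_contra h
    push Not at h
    have := QR_lt hx0 hy0 h h2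
    linarith
  have r3 : (c.1.1 : ℝ) + c.1.2 ≤ x + y := by
    by_contra h
    push Not at h
    have := QR_lt_st (x := x) (y := y) (x' := c.1.1) (y' := c.1.2) (by linarith) (by linarith) h
      (by linarith)
    linarith
  have r4 : x + y ≤ (c.2.1 : ℝ) + 1 + c.2.2 := by
    by_contra h
    push Not at h
    have := QR_lt_st (x := (c.2.1 : ℝ) + 1) (y := c.2.2) (x' := x) (y' := y) (by positivity)
      (by linarith) h (by linarith)
    linarith
  unfold ranges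
  refine ⟨r2, ?_, h1, h2, ?_, ?_, ?_, ?_⟩
  · push_cast; exact r1
  · push_cast; exact r3
  · push_cast; exact r4
  · exact cast_sub_le (by linarith) (by linarith)
  · refine le_trans ?_ (cast_sub_ge _ _)
    push_cast
    linarith

theorem exists_consec : ∀ (l : List (ℕ × ℕ)) (a : ℕ × ℕ) (y : ℝ), (a.2 : ℝ) ≤ y → l ≠ [] →
    y ≤ (((a :: l).getLast (List.cons_ne_nil a l)).2 : ℝ) →
    ∃ c ∈ (a :: l).zip l, (c.1.2 : ℝ) ≤ y ∧ y ≤ (c.2.2 : ℝ) := by
  intro l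
  induction l with
  | nil => intro a y _ h; exact absurd rfl h
  | cons b l ih =>
    intro a y ha _ hl
    by_cases hb : y ≤ (b.2 : ℝ)
    · exact ⟨(a, b), by simp, ha, hb⟩
    · push Not at hb
      by_cases hn : l = []
      · subst hn
        simp only [List.getLast_cons_cons, List.getLast_singleton] at hl
        exact absurd hl (not_le.mpr hb)
      · rw [List.getLast_cons_cons] at hl
        obtain ⟨c, hc, hc2⟩ := ih b y hb.le hn hl
        refine ⟨c, ?_, hc2⟩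
        rw [List.zip_cons_cons]
        exact List.mem_cons_of_mem _ hc

theorem nodes_form : ∃ a l, nodes = a :: l ∧ l ≠ [] ∧ a.2 = 0 := by
  refine ⟨(nodes.head (by decide)), nodes.tail, ?_, ?_, ?_⟩
  · exact (List.cons_head_tail _).symm
  · decide
  · decide

set_option maxRecDepth 100000 in
theorem last_ok : Nat.blt Kn (Qn (nodes.getLast (by decide)).2 (nodes.getLast (by decide)).2) = true := by
  decide +kernel

theorem exists_cell {x y : ℝ} (hxy : y ≤ x) (hy0 : 0 ≤ y) (hQ : QR x y = (Kn : ℝ)) :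
    ∃ I ∈ cellList, In4 I x y (x + y) (x - y) := by
  obtain ⟨a, l, hal, hl, ha0⟩ := nodes_form
  have hlast : y ≤ (((a :: l).getLast (List.cons_ne_nil a l)).2 : ℝ) := by
    have h1 : nodes.getLast (by decide) = (a :: l).getLast (List.cons_ne_nil a l) := by
      simp only [hal]
    have h2 := last_ok
    rw [h1] at h2
    have h3 : Kn < Qn ((a :: l).getLast (List.cons_ne_nil a l)).2
        ((a :: l).getLast (List.cons_ne_nil a l)).2 := by
      have := Nat.le_of_ble_eq_true h2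
      exact this
    by_contra h
    push Not at h
    have h4 : (Kn : ℝ) < QR ((a :: l).getLast (List.cons_ne_nil a l)).2
        ((a :: l).getLast (List.cons_ne_nil a l)).2 := by
      rw [QR_cast]
      exact_mod_cast h3
    have h5 := QR_lt (Nat.cast_nonneg _) (Nat.cast_nonneg _) (lt_of_lt_of_le h hxy) h.le
    linarith
  obtain ⟨c, hc, hc1, hc2⟩ := exists_consec l a y (by rw [ha0]; simpa using hy0) hl hlast
  have htail : nodes.tail = l := by rw [hal]; rfl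
  have hcm : c ∈ nodes.zip nodes.tail := by rw [htail, hal]; exact hc
  have hm := List.of_mem_zip (a := c.1) (b := c.2) hcm
  have hall := List.all_eq_true.mp nodes_ok
  refine ⟨ranges c, List.mem_map.mpr ⟨c, hcm, rfl⟩, ?_⟩
  exact cell_ranges (hall _ hm.1) (hall _ (List.mem_of_mem_tail hm.2)) hxy hy0 hQ hc1 hc2

theorem comp_sound (al ah bl bh : ℕ) (neg : Bool) {a β b : ℝ} (h1 : (al : ℝ) ≤ a) (h2 : a ≤ (ah : ℝ))
    (h3 : (bl : ℝ) ≤ β) (h4 : β ≤ (bh : ℝ)) (hb : b = if neg = true then -β else β) :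
    (mn al ah bl bh neg : ℝ) ≤ |a - b| ∧ |a - b| ≤ (mx al ah bl bh neg : ℝ) ∧
      PP a b ≤ (ff al ah bl bh neg : ℝ) := by
  have ha0 : 0 ≤ a := (Nat.cast_nonneg al).trans h1
  have hb0 : 0 ≤ β := (Nat.cast_nonneg bl).trans h3
  have hpow : ∀ a n : ℕ, Nat.pow a n = a ^ n := fun _ _ => rfl
  cases neg with
  | true =>
    simp only [if_true] at hb
    subst hb
    have e : a - -β = a + β := by ring
    rw [e, abs_of_nonneg (by linarith)]
    refine ⟨?_, ?_, ?_⟩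
    · simp only [mn]; push_cast; linarith
    · simp only [mx]; push_cast; linarith
    · unfold PP
      simp only [ff, hpow]
      rw [odd23, e, sub_neg_eq_add]
      push_cast
      have e1 : a ^ 23 ≤ (ah : ℝ) ^ 23 := pow_le_pow_left₀ ha0 h2 23
      have e2 : β ^ 23 ≤ (bh : ℝ) ^ 23 := pow_le_pow_left₀ hb0 h4 23
      have e3 : 0 ≤ a ^ 23 := by positivity
      have e4 : 0 ≤ β ^ 23 := by positivity
      apply mul_le_mul <;> linarith
  | false =>
    simp only [Bool.false_eq_true, if_false] at hb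
    subst hb
    refine ⟨?_, ?_, ?_⟩
    · simp only [mn]
      push_cast
      rcases le_total al bh with h | h
      · rw [Nat.sub_eq_zero_of_le h, Nat.cast_zero, zero_add]
        apply cast_sub_le (abs_nonneg _)
        rw [abs_sub_comm]
        exact (by linarith : (bl : ℝ) - ah ≤ b - a).trans (le_abs_self _)
      · have h' : bl ≤ ah := by
          have : (bl : ℝ) ≤ ah := by
            have : (bh : ℝ) ≤ al := by exact_mod_cast h
            linarith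
          exact_mod_cast this
        rw [Nat.sub_eq_zero_of_le h', Nat.cast_zero, add_zero]
        apply cast_sub_le (abs_nonneg _)
        exact (by linarith : (al : ℝ) - bh ≤ a - b).trans (le_abs_self _)
    · simp only [mx]
      push_cast
      have e1 := cast_sub_ge ah bl
      have e2 := cast_sub_ge bh al
      have e3 : (0 : ℝ) ≤ ((ah - bl : ℕ) : ℝ) := Nat.cast_nonneg _
      have e4 : (0 : ℝ) ≤ ((bh - al : ℕ) : ℝ) := Nat.cast_nonneg _
      rw [abs_le]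
      constructor <;> linarith
    · unfold PP
      simp only [ff, hpow]
      push_cast
      have p1 := cast_sub_ge (ah ^ 23) (bl ^ 23)
      have p2 := cast_sub_ge (bh ^ 23) (al ^ 23)
      push_cast at p1 p2
      have e1 := cast_sub_ge ah bl
      have e2 := cast_sub_ge bh al
      have n1 : (0 : ℝ) ≤ ((ah - bl : ℕ) : ℝ) := Nat.cast_nonneg _
      have n2 : (0 : ℝ) ≤ ((bh - al : ℕ) : ℝ) := Nat.cast_nonneg _
      have n3 : (0 : ℝ) ≤ ((ah ^ 23 - bl ^ 23 : ℕ) : ℝ) := Nat.cast_nonneg _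
      have n4 : (0 : ℝ) ≤ ((bh ^ 23 - al ^ 23 : ℕ) : ℝ) := Nat.cast_nonneg _
      have m1 : a ^ 23 ≤ (ah : ℝ) ^ 23 := pow_le_pow_left₀ ha0 h2 23
      have m2 : (bl : ℝ) ^ 23 ≤ b ^ 23 := pow_le_pow_left₀ (Nat.cast_nonneg _) h3 23
      have m3 : b ^ 23 ≤ (bh : ℝ) ^ 23 := pow_le_pow_left₀ hb0 h4 23
      have m4 : (al : ℝ) ^ 23 ≤ a ^ 23 := pow_le_pow_left₀ (Nat.cast_nonneg _) h1 23
      rcases le_total b a with h | h
      · have h5 : b ^ 23 ≤ a ^ 23 := pow_le_pow_left₀ hb0 h 23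
        have h6 : (a ^ 23 - b ^ 23) * (a - b) ≤
            ((ah ^ 23 - bl ^ 23 : ℕ) : ℝ) * ((ah - bl : ℕ) : ℝ) := by
          apply mul_le_mul <;> linarith
        have h7 : 0 ≤ ((bh ^ 23 - al ^ 23 : ℕ) : ℝ) * ((bh - al : ℕ) : ℝ) := mul_nonneg n4 n2
        linarith
      · have h5 : a ^ 23 ≤ b ^ 23 := pow_le_pow_left₀ ha0 h 23
        have h6 : (b ^ 23 - a ^ 23) * (b - a) ≤
            ((bh ^ 23 - al ^ 23 : ℕ) : ℝ) * ((bh - al : ℕ) : ℝ) := by
          apply mul_le_mul <;> linarith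
        have h7 : 0 ≤ ((ah ^ 23 - bl ^ 23 : ℕ) : ℝ) * ((ah - bl : ℕ) : ℝ) := mul_nonneg n3 n1
        have h8 : (a ^ 23 - b ^ 23) * (a - b) = (b ^ 23 - a ^ 23) * (b - a) := by ring
        linarith

end Pool.Agent.Q183.DN
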