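import Pool.Agent.Q183.DN.Chk

namespace Pool.Agent.Q183.DN

open scoped ENNReal
open Set

/-- The norming functionals `J₁(x)`. -/
def J1 (X : Type) [NormedAddCommGroup X] [NormedSpace ℝ X] (x : X) : Set (StrongDual ℝ X) :=
  {p | ‖p‖ = 1 ∧ p x = ‖x‖}

/-- All numbers `⟨p₁ - p₂, x₁ - x₂⟩`, `x₁, x₂` in the unit sphere at distance `ε`, `pᵢ ∈ J₁(xᵢ)`. -/
def values (X : Type) [NormedAddCommGroup X] [NormedSpace ℝ X] (ε : ℝ) : Set ℝ :=
  {r | ∃ x₁ x₂ : X, ‖x₁‖ = 1 ∧ ‖x₂‖ = 1 ∧ ‖x₁ - x₂‖ = ε ∧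
    ∃ p₁ ∈ J1 X x₁, ∃ p₂ ∈ J1 X x₂, r = (p₁ - p₂) (x₁ - x₂)}

/-- `γ⁺` -/
noncomputable def gammaPlus (X : Type) [NormedAddCommGroup X] [NormedSpace ℝ X] (ε : ℝ) : ℝ :=
  sSup (values X ε)

/-- `γ⁻` -/
noncomputable def gammaMinus (X : Type) [NormedAddCommGroup X] [NormedSpace ℝ X] (ε : ℝ) : ℝ :=
  sInf (values X ε)

instance fact24 : Fact ((1 : ℝ≥0∞) ≤ 24) := ⟨by norm_num⟩

/-- `ℓ₂₄` of dimension four. -/
abbrev L := PiLp 24 (fun _ : Fin 4 => ℝ)

theorem norm_pow (v : L) : ‖v‖ ^ 24 = ∑ i, (v i) ^ 24 := by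
  have h24 : (24 : ℝ≥0∞).toReal = 24 := by simp
  rw [PiLp.norm_eq_sum (by rw [h24]; norm_num), h24]
  have h1 : ∀ i : Fin 4, ‖v i‖ ^ (24 : ℝ) = (v i) ^ 24 := by
    intro i
    rw [show (24 : ℝ) = ((24 : ℕ) : ℝ) by norm_num, Real.rpow_natCast, Real.norm_eq_abs]
    exact abs24 _
  simp only [h1]
  have h2 : 0 ≤ ∑ i, (v i) ^ 24 := Finset.sum_nonneg fun i _ => Even.pow_nonneg (by decide) _
  rw [← Real.rpow_natCast, ← Real.rpow_mul h2]
  norm_num

/-- The embedding of the plane. -/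
noncomputable def T : ℝ × ℝ →ₗ[ℝ] L where
  toFun p := WithLp.toLp 24 ![p.1, p.2, (p.1 + p.2) / Real.sqrt 2, (p.1 - p.2) / Real.sqrt 2]
  map_add' p q := by
    ext i
    fin_cases i <;> simp <;> ring
  map_smul' c p := by
    ext i
    fin_cases i <;> simp <;> ring

theorem T0 (p : ℝ × ℝ) : T p 0 = p.1 := rfl
theorem T1 (p : ℝ × ℝ) : T p 1 = p.2 := rfl
theorem T2 (p : ℝ × ℝ) : T p 2 = (p.1 + p.2) / Real.sqrt 2 := rfl
theorem T3 (p : ℝ × ℝ) : T p 3 = (p.1 - p.2) / Real.sqrt 2 := rfl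

theorem sqrt24 : Real.sqrt 2 ^ 24 = 4096 := by
  have h : Real.sqrt 2 ^ 2 = 2 := Real.sq_sqrt (by norm_num)
  calc Real.sqrt 2 ^ 24 = (Real.sqrt 2 ^ 2) ^ 12 := by rw [← pow_mul]
    _ = 4096 := by rw [h]; norm_num

theorem norm_T (p : ℝ × ℝ) : 4096 * ‖T p‖ ^ 24 = QR p.1 p.2 := by
  rw [norm_pow, Fin.sum_univ_four, T0, T1, T2, T3, div_pow, div_pow, sqrt24]
  unfold QR
  generalize (p.1 + p.2) ^ 24 = u
  generalize (p.1 - p.2) ^ 24 = v
  ring

theorem T_inj : Function.Injective T := by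
  intro p q h
  have h0 : T p 0 = T q 0 := by rw [h]
  have h1 : T p 1 = T q 1 := by rw [h]
  exact Prod.ext h0 h1

/-- The counterexample: a two-dimensional subspace of `ℓ₂₄` of dimension four. -/
abbrev XX : Type := LinearMap.range T

theorem finrank_XX : Module.finrank ℝ XX = 2 := by
  rw [LinearMap.finrank_range_of_inj T_inj]
  simp

theorem pow24_deriv (a b : ℝ) : HasDerivAt (fun s : ℝ => (a + s * b) ^ 24) (24 * a ^ 23 * b) 0 := by
  have h2 : HasDerivAt (fun s : ℝ => a + s * b) b 0 := by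
    simpa using ((hasDerivAt_id (0 : ℝ)).mul_const b).const_add a
  have h3 := h2.fun_pow 24
  refine h3.congr_deriv ?_
  norm_num

/-- The norming functional is unique. -/
theorem norming {x v : XX} {p : StrongDual ℝ XX} (hx : ‖x‖ = 1) (hp : p ∈ J1 XX x) :
    p v = ∑ i, ((x : L) i) ^ 23 * (v : L) i := by
  obtain ⟨hp1, hpx⟩ := hp
  rw [hx] at hpx
  let g : ℝ → ℝ := fun s => (∑ i, ((x : L) i + s * (v : L) i) ^ 24) - (1 + s * p v) ^ 24
  have hg0 : g 0 = 0 := by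
    have h1 : ∑ i, ((x : L) i) ^ 24 = 1 := by
      rw [← norm_pow]
      have : ‖(x : L)‖ = 1 := hx
      rw [this, one_pow]
    simp only [g, zero_mul, add_zero, one_pow]
    rw [h1, sub_self]
  have hg : ∀ s, 0 ≤ g s := by
    intro s
    have h1 : p (x + s • v) = 1 + s * p v := by
      rw [map_add, map_smul, hpx, smul_eq_mul]
    have h2 : |p (x + s • v)| ≤ ‖x + s • v‖ := by
      have := p.le_opNorm (x + s • v)
      rw [hp1, one_mul] at this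
      exact this
    have h3 : |p (x + s • v)| ^ 24 ≤ ‖x + s • v‖ ^ 24 := pow_le_pow_left₀ (abs_nonneg _) h2 24
    rw [abs24, h1] at h3
    have h4 : ‖x + s • v‖ ^ 24 = ∑ i, ((x : L) i + s * (v : L) i) ^ 24 := by
      have : ‖x + s • v‖ = ‖(x : L) + s • (v : L)‖ := rfl
      rw [this, norm_pow]
      rfl
    rw [h4] at h3
    exact sub_nonneg.mpr h3
  have hmin : IsLocalMin g 0 := Filter.Eventually.of_forall fun s => by
    rw [hg0]; exact hg s
  have hd : HasDerivAt g ((∑ i, 24 * ((x : L) i) ^ 23 * (v : L) i) - 24 * p v) 0 := by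
    have h1 : ∀ i : Fin 4, HasDerivAt (fun s : ℝ => ((x : L) i + s * (v : L) i) ^ 24)
        (24 * ((x : L) i) ^ 23 * (v : L) i) 0 := fun i => pow24_deriv _ _
    have h4 : HasDerivAt (fun s : ℝ => (1 + s * p v) ^ 24) (24 * p v) 0 := by
      refine (pow24_deriv 1 (p v)).congr_deriv ?_
      norm_num
    exact (HasDerivAt.fun_sum fun i _ => h1 i).sub h4
  have h0 := hmin.hasDerivAt_eq_zero hd
  have h5 : ∑ i, 24 * ((x : L) i) ^ 23 * (v : L) i = 24 * ∑ i, ((x : L) i) ^ 23 * (v : L) i := by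
    rw [Finset.mul_sum]
    exact Finset.sum_congr rfl fun i _ => by ring
  rw [h5] at h0
  linarith

theorem sqrt_PP (a b : ℝ) : PP (a / Real.sqrt 2) (b / Real.sqrt 2) = PP a b / 4096 := by
  have hs : Real.sqrt 2 ≠ 0 := by positivity
  unfold PP
  rw [div_pow, div_pow, ← sub_div, ← sub_div, div_mul_div_comm, ← pow_succ, sqrt24]

theorem QR_smul (c a b : ℝ) : QR (c * a) (c * b) = c ^ 24 * QR a b := by
  unfold QR
  rw [← mul_add c a b, ← mul_sub c a b, mul_pow, mul_pow, mul_pow, mul_pow]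
  generalize (a + b) ^ 24 = u
  generalize (a - b) ^ 24 = v
  ring

theorem PP_smul (c a b : ℝ) : PP (c * a) (c * b) = c ^ 24 * PP a b := by
  unfold PP
  rw [mul_pow, mul_pow]
  ring

theorem Phi_smul (c x1 y1 x2 y2 : ℝ) :
    PhiR (c * x1) (c * y1) (c * x2) (c * y2) = c ^ 24 * PhiR x1 y1 x2 y2 := by
  unfold PhiR
  rw [← mul_add c x1 y1, ← mul_add c x2 y2, ← mul_sub c x1 y1, ← mul_sub c x2 y2, PP_smul, PP_smul,
    PP_smul, PP_smul]
  ring

theorem value_le {r : ℝ} (hr : r ∈ values XX (41 / 50)) : r ≤ 6714 / 10000 := by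
  obtain ⟨x₁, x₂, h1, h2, h3, p₁, hp₁, p₂, hp₂, rfl⟩ := hr
  obtain ⟨q₁, hq₁⟩ := x₁.2
  obtain ⟨q₂, hq₂⟩ := x₂.2
  have e1 : QR q₁.1 q₁.2 = 4096 := by
    rw [← norm_T, hq₁]
    have : ‖(x₁ : L)‖ = 1 := h1
    rw [this]
    norm_num
  have e2 : QR q₂.1 q₂.2 = 4096 := by
    rw [← norm_T, hq₂]
    have : ‖(x₂ : L)‖ = 1 := h2
    rw [this]
    norm_num
  have e3 : QR (q₁.1 - q₂.1) (q₁.2 - q₂.2) = 4096 * (41 / 50) ^ 24 := by
    have h4 := norm_T (q₁ - q₂)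
    rw [map_sub, hq₁, hq₂] at h4
    have : ‖(x₁ : L) - (x₂ : L)‖ = 41 / 50 := h3
    rw [this] at h4
    exact h4.symm
  have hΦ : (p₁ - p₂) (x₁ - x₂) = PhiR q₁.1 q₁.2 q₂.1 q₂.2 / 4096 := by
    have h5 : (p₁ - p₂) (x₁ - x₂) = p₁ (x₁ - x₂) - p₂ (x₁ - x₂) := rfl
    rw [h5, norming h1 hp₁, norming h2 hp₂, ← Finset.sum_sub_distrib]
    have h6 : ∀ i : Fin 4, (x₁ : L) i ^ 23 * ((x₁ - x₂ : XX) : L) i -
        (x₂ : L) i ^ 23 * ((x₁ - x₂ : XX) : L) i = PP ((x₁ : L) i) ((x₂ : L) i) := by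
      intro i
      have : ((x₁ - x₂ : XX) : L) i = (x₁ : L) i - (x₂ : L) i := rfl
      rw [this]
      unfold PP
      ring
    rw [Finset.sum_congr rfl fun i _ => h6 i, Fin.sum_univ_four, ← hq₁, ← hq₂, T0, T1, T2, T3, T0,
      T1, T2, T3, sqrt_PP, sqrt_PP]
    unfold PhiR
    ring
  have hmain := main_scaled (x1 := 40000 * q₁.1) (y1 := 40000 * q₁.2) (x2 := 40000 * q₂.1)
    (y2 := 40000 * q₂.2) (by rw [QR_smul, e1, Kn_cast]; norm_num)
    (by rw [QR_smul, e2, Kn_cast]; norm_num)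
    (by rw [← mul_sub, ← mul_sub, QR_smul, e3, En_cast]; norm_num)
  rw [Phi_smul] at hmain
  have hB : (Bn : ℝ) = 4096 * (32800 ^ 2 - 1600000) * 40000 ^ 22 := by
    have : Bn = 4096 * (32800 ^ 2 - 1600000) * 40000 ^ 22 := rfl
    rw [this]
    norm_num
  rw [hB] at hmain
  rw [hΦ]
  norm_num at hmain ⊢
  linarith

theorem exists_norming (x : XX) (hx : ‖x‖ = 1) : ∃ p, p ∈ J1 XX x := by
  have hx0 : ‖x‖ ≠ 0 := by
    rw [hx]
    norm_num
  obtain ⟨g, hg1, hg2⟩ := exists_dual_vector ℝ x hx0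
  exact ⟨g, hg1, by simpa using hg2⟩

theorem values_nonempty : (values XX (41 / 50)).Nonempty := by
  let t : ℝ × ℝ → XX := fun p => ⟨T p, ⟨p, rfl⟩⟩
  have hT : ∀ p, ‖t p‖ = ‖T p‖ := fun _ => rfl
  have hn0 : 0 < ‖T (0, 1)‖ := by
    rw [norm_pos_iff]
    intro h
    have := T_inj (h.trans (map_zero T).symm)
    simp at this
  obtain ⟨n, hn⟩ : ∃ n, n = ‖T (0, 1)‖ := ⟨_, rfl⟩
  rw [← hn] at hn0
  obtain ⟨v, hv⟩ : ∃ v : ℝ, v = 41 / 100 / n := ⟨_, rfl⟩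
  have hsmul : ∀ w : ℝ, ‖T (0, w)‖ = |w| * n := by
    intro w
    have : T (0, w) = w • T (0, 1) := by
      rw [← map_smul]
      simp
    rw [this, norm_smul, Real.norm_eq_abs, hn]
  have hv0 : 0 < v := by rw [hv]; positivity
  have hvn : v * n = 41 / 100 := by rw [hv]; field_simp
  -- intermediate value
  have hcont : Continuous fun u : ℝ => ‖T (u, v)‖ := by
    have h1 : Continuous T := LinearMap.continuous_of_finiteDimensional T
    exact (h1.comp (by fun_prop)).norm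
  have h0 : ‖T (0, v)‖ ≤ 1 := by
    rw [hsmul, abs_of_pos hv0, hvn]
    norm_num
  have h1 : 1 ≤ ‖T (1, v)‖ := by
    have h2 : (1 : ℝ) ^ 24 ≤ ‖T (1, v)‖ ^ 24 := by
      rw [norm_pow, Fin.sum_univ_four, T0]
      have q1 : 0 ≤ (T (1, v) 1) ^ 24 := Even.pow_nonneg (by decide) _
      have q2 : 0 ≤ (T (1, v) 2) ^ 24 := Even.pow_nonneg (by decide) _
      have q3 : 0 ≤ (T (1, v) 3) ^ 24 := Even.pow_nonneg (by decide) _
      simp only [one_pow]
      linarith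
    exact le_of_pow_le_pow_left₀ (by norm_num) (norm_nonneg _) h2
  obtain ⟨u, -, hu⟩ := intermediate_value_Icc (zero_le_one' ℝ) hcont.continuousOn
    (show (1 : ℝ) ∈ Icc ‖T (0, v)‖ ‖T (1, v)‖ from ⟨h0, h1⟩)
  simp only at hu
  have hu' : ‖T (u, -v)‖ = 1 := by
    have e1 : ‖T (u, -v)‖ ^ 24 = ‖T (u, v)‖ ^ 24 := by
      have a1 := norm_T (u, -v)
      have a2 := norm_T (u, v)
      simp only [QR_negy] at a1 a2
      linarith
    rw [hu] at e1
    exact (pow_eq_one_iff_of_nonneg (norm_nonneg _) (by norm_num)).mp (e1.trans (one_pow 24))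
  have hd : ‖t (u, v) - t (u, -v)‖ = 41 / 50 := by
    have e1 : t (u, v) - t (u, -v) = t (0, 2 * v) := by
      apply Subtype.ext
      show T (u, v) - T (u, -v) = T (0, 2 * v)
      rw [← map_sub]
      congr 1
      ext
      · simp
      · simp; ring
    rw [e1, hT, hsmul, abs_of_pos (by positivity)]
    linarith
  obtain ⟨p₁, hp₁⟩ := exists_norming (t (u, v)) (by rw [hT]; exact hu)
  obtain ⟨p₂, hp₂⟩ := exists_norming (t (u, -v)) (by rw [hT]; exact hu')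
  exact ⟨_, t (u, v), t (u, -v), by rw [hT]; exact hu, by rw [hT]; exact hu', hd, p₁, hp₁, p₂, hp₂,
    rfl⟩

theorem gamma_lt : gammaPlus XX (41 / 50) < (41 / 50) ^ 2 := by
  have h1 : gammaPlus XX (41 / 50) ≤ 6714 / 10000 :=
    csSup_le values_nonempty fun r hr => value_le hr
  norm_num at h1 ⊢
  linarith

end Pool.Agent.Q183.DN
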