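import Mathlib

namespace Pool.Agent.Q183.DN

/-- Points `(X, Y)` (scaled by `40000`) just inside the unit sphere; `(X + 1, Y)` is outside. -/
def nodes : List (ℕ × ℕ) := [(39999, 0), (39999, 283), (39999, 566), (39999, 848), (39999, 989),
  (39999, 1131), (39998, 1414), (39998, 1697), (39998, 1838), (39998, 1980), (39998, 2263),
  (39998, 2545), (39997, 2686), (39997, 2828), (39997, 3111), (39997, 3394), (39996, 3677),
  (39996, 3818), (39996, 3960), (39995, 4242), (39994, 4525), (39993, 4808), (39992, 5091),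
  (39991, 5374), (39990, 5657), (39988, 5939), (39986, 6222), (39982, 6788), (39979, 7071),
  (39976, 7354), (39969, 7920), (39959, 8485), (39946, 9051), (39938, 9334), (39929, 9617),
  (39907, 10182), (39894, 10465), (39887, 10606), (39879, 10748), (39862, 11031), (39853, 11172),
  (39843, 11314), (39822, 11596), (39810, 11737), (39798, 11879), (39785, 12020), (39771, 12162),
  (39740, 12445), (39724, 12586), (39706, 12728), (39688, 12869), (39668, 13011), (39626, 13293),
  (39603, 13434), (39578, 13576), (39552, 13717), (39525, 13859), (39497, 14000), (39466, 14142),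
  (39401, 14425), (39366, 14566), (39329, 14708), (39291, 14849), (39250, 14990), (39208, 15131),
  (39163, 15273), (39117, 15414), (39068, 15556), (39017, 15697), (38964, 15839), (38908, 15980),
  (38850, 16122), (38790, 16263), (38727, 16405), (38663, 16546), (38595, 16687), (38525, 16828),
  (38452, 16970), (38377, 17111), (38299, 17253), (38219, 17394), (38136, 17536), (38051, 17677),
  (37963, 17819), (37873, 17960), (37780, 18102), (37685, 18243), (37587, 18384), (37488, 18525),
  (37385, 18667), (37281, 18808), (37174, 18950), (37066, 19091), (36955, 19233), (36842, 19374),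
  (36728, 19516), (36493, 19799), (36254, 20081), (36007, 20364), (35756, 20647), (35500, 20930),
  (35240, 21213), (34976, 21496), (34709, 21779), (34440, 22062), (34170, 22344), (33896, 22627),
  (33621, 22910), (33345, 23193), (33067, 23476), (32789, 23759), (32511, 24041), (32231, 24324),
  (31950, 24607), (31669, 24890), (31388, 25173), (31106, 25456), (30825, 25738), (30685, 25879),
  (30543, 26021), (30261, 26304), (30120, 26445), (29979, 26587), (29696, 26870), (29555, 27011),
  (29413, 27153), (29132, 27435), (28849, 27718), (28708, 27859), (28566, 28001), (28283, 28284)]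

/-- `4096 (x^24 + y^24) + (x + y)^24 + (x - y)^24`. -/
def Qn (x y : ℕ) : ℕ :=
  4096 * (Nat.pow x 24 + Nat.pow y 24) + Nat.pow (x + y) 24 + Nat.pow ((x - y) + (y - x)) 24

/-- The value on the unit sphere. -/
def Kn : ℕ := 4096 * Nat.pow 40000 24

/-- The value for the distance. -/
def En : ℕ := 4096 * Nat.pow 32800 24

/-- The bound for the modulus. -/
def Bn : ℕ := 4096 * (Nat.pow 32800 2 - 1600000) * Nat.pow 40000 22

def nodeOK (p : ℕ × ℕ) : Bool :=
  Nat.ble (Qn p.1 p.2) Kn && Nat.ble Kn (Qn (p.1 + 1) p.2) && Nat.ble p.2 (p.1 + 1)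

/-- minimal difference -/
def mn (al ah bl bh : ℕ) : Bool → ℕ
  | false => (al - bh) + (bl - ah)
  | true => al + bl

/-- maximal difference -/
def mx (al ah bl bh : ℕ) : Bool → ℕ
  | false => (ah - bl) + (bh - al)
  | true => ah + bh

/-- bound for the product -/
def ff (al ah bl bh : ℕ) : Bool → ℕ
  | false => (Nat.pow ah 23 - Nat.pow bl 23) * (ah - bl) +
      (Nat.pow bh 23 - Nat.pow al 23) * (bh - al)
  | true => (Nat.pow ah 23 + Nat.pow bh 23) * (ah + bh)

/-- four intervals -/
abbrev I4 := (ℕ × ℕ) × (ℕ × ℕ) × (ℕ × ℕ) × (ℕ × ℕ)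

def farOK (m0 m1 m2 m3 : ℕ) : Bool :=
  Nat.blt 32800 m0 || Nat.blt 32800 m1 || Nat.blt 2151680000 (m2 * m2) ||
    Nat.blt 2151680000 (m3 * m3) ||
    Nat.blt En (4096 * (Nat.pow m0 24 + Nat.pow m1 24) + Nat.pow m2 24 + Nat.pow m3 24)

def nearOK (m0 m1 m2 m3 : ℕ) : Bool :=
  Nat.blt (4096 * (Nat.pow m0 24 + Nat.pow m1 24) + Nat.pow m2 24 + Nat.pow m3 24) En

def check (a b : I4) (n0 n1 n2 n3 : Bool) : Bool :=
  farOK (mn a.1.1 a.1.2 b.1.1 b.1.2 n0) (mn a.2.1.1 a.2.1.2 b.2.1.1 b.2.1.2 n1)
    (mn a.2.2.1.1 a.2.2.1.2 b.2.2.1.1 b.2.2.1.2 n2) (mn a.2.2.2.1 a.2.2.2.2 b.2.2.2.1 b.2.2.2.2 n3) ||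
  nearOK (mx a.1.1 a.1.2 b.1.1 b.1.2 n0) (mx a.2.1.1 a.2.1.2 b.2.1.1 b.2.1.2 n1)
    (mx a.2.2.1.1 a.2.2.1.2 b.2.2.1.1 b.2.2.1.2 n2) (mx a.2.2.2.1 a.2.2.2.2 b.2.2.2.1 b.2.2.2.2 n3) ||
  Nat.ble (4096 * (ff a.1.1 a.1.2 b.1.1 b.1.2 n0 + ff a.2.1.1 a.2.1.2 b.2.1.1 b.2.1.2 n1) +
    ff a.2.2.1.1 a.2.2.1.2 b.2.2.1.1 b.2.2.1.2 n2 +
    ff a.2.2.2.1 a.2.2.2.2 b.2.2.2.1 b.2.2.2.2 n3) Bn

/-- the ranges of `x, y, x + y, x - y` in the cell between two nodes -/
def ranges (c : (ℕ × ℕ) × (ℕ × ℕ)) : I4 :=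
  ((c.2.1, c.1.1 + 1), (c.1.2, c.2.2), (c.1.1 + c.1.2, c.2.1 + 1 + c.2.2),
    (c.2.1 - c.2.2, c.1.1 + 1 - c.1.2))

def swp (b : I4) : I4 := (b.2.1, b.1, b.2.2.1, b.2.2.2)

def st (b : I4) : I4 := (b.1, b.2.1, b.2.2.2, b.2.2.1)

def pairOK (a b : I4) : Bool :=
  check a b false false false false &&
  check a (st b) true false true true &&
  check a (st b) false true false false &&
  check a b true true true true &&
  check a (swp b) false false false true &&
  check a (st (swp b)) true false false true &&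
  check a (st (swp b)) false true true false &&
  check a (swp b) true true true false

def cellList : List I4 := (nodes.zip nodes.tail).map ranges

def allOK : Bool := cellList.all fun a => cellList.all fun b => pairOK a b

set_option maxRecDepth 100000 in
theorem nodes_ok : nodes.all nodeOK = true := by decide +kernel

set_option maxRecDepth 100000 in
theorem all_ok : allOK = true := by decide +kernel

end Pool.Agent.Q183.DN
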